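import Pool.Agent.H13.HV.TR1

/-!
# TR: transfer of a system over a well-order to an equivariant system
-/

set_option autoImplicit false

open Set Topology TopologicalSpace Filter

namespace Pool.Agent.H13.HV

open Pool.Agent.H71.HV

universe u v

/-- Skolem functions `P → P → P` -/
inductive IPP
  | ext (n : ℕ)
  | dec0 (V k : ℕ)
  | dec (V W : ℕ)
  | r2a (V Z V' : ℕ)
  | r2b (V Z V' : ℕ)
  | r5a (V Z : ℕ)
  | r5b (V Z : ℕ)
  deriving Countable

/-- colourings of pairs -/
inductive KPP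
  | le
  | stem
  | lab (V W : ℕ)
  | neg (V k : ℕ)
  | R (V Z : ℕ)
  | N (V Z : ℕ)
  | r2z (V Z V' : ℕ)
  | r5v (V Z : ℕ)
  deriving Countable

instance : Countable RD := by
  have : Function.Injective (fun D : RD => (D.i, D.j, D.r, D.r1, D.s, D.e)) := by
    rintro ⟨⟩ ⟨⟩ h
    simp only [Prod.mk.injEq] at h
    obtain ⟨h1, h2, h3, h4, h5, h6⟩ := h
    subst h1 h2 h3 h4 h5 h6
    rfl
  exact this.countable

section Labels

variable {J κ : Type}

/-- status of a label -/
def lcode : Option (Lab κ) → ℕ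
  | none => 0
  | some none => 1
  | some (some none) => 2
  | some (some (some _)) => 3

/-- value of a label -/
def lval (κ0 : κ) : Option (Lab κ) → κ
  | some (some (some ξ)) => ξ
  | _ => κ0

/-- label from status and value -/
def lmk : ℕ → J → Option (Lab J)
  | 0, _ => none
  | 1, _ => some ⊥
  | 2, _ => some ((⊤ : WithTop J) : WithBot (WithTop J))
  | _, ξ => some (lb ξ)

/-- change of the values -/
def evL (f : J → κ) : Lab J → Lab κ := WithBot.map (WithTop.map f)

@[simp] lemma evL_lb (f : J → κ) (ξ : J) : evL f (lb ξ) = lb (f ξ) := rfl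

@[simp] lemma evL_bot (f : J → κ) : evL f (⊥ : Lab J) = ⊥ := rfl

lemma lmk_map (f : J → κ) (n : ℕ) (ξ : J) : (lmk n ξ).map (evL f) = lmk n (f ξ) := by
  match n with
  | 0 => rfl
  | 1 => rfl
  | 2 => rfl
  | n + 3 => rfl

lemma lmk_code (κ0 : κ) (l : Option (Lab κ)) : lmk (lcode l) (lval κ0 l) = l := by
  match l with
  | none => rfl
  | some none => rfl
  | some (some none) => rfl
  | some (some (some ξ)) => rfl

end Labels

variable {G : Type u} {Y : Type v} [Group G] [MetricSpace G] [TopologicalSpace Y] [MulAction G Y]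

/-- Skolem functions of a system -/
lemma skolem (C : Ctx G Y) (κ : Type) [LinearOrder κ] (P : Type) [Preorder P] (S : Sys C κ P) :
    ∃ (F : IPP → P → P → P) (H : P → κ → P) (hD : P → κ → RD) (f2 : ℕ → ℕ → ℕ → P → P → ℕ)
      (f5 : ℕ → ℕ → P → P → ℕ),
      (∀ n p q, F (.ext n) p q ≤ p ∧ n ≤ (S.stem (F (.ext n) p q)).length) ∧
      (∀ V k p q, F (.dec0 V k) p q ≤ p ∧ (C.Forces (S.stem (F (.dec0 V k) p q)) V k ∨
        S.neg (F (.dec0 V k) p q) V k)) ∧
      (∀ V W p q, F (.dec V W) p q ≤ p ∧ ∃ l, S.lab (F (.dec V W) p q) V W = some l) ∧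
      (∀ p ξ, H p ξ ≤ p ∧ (hD p ξ).Valid ∧ S.rob (H p ξ) (hD p ξ) ξ) ∧
      (∀ V Z V' a b, S.R a b V Z → C.B V' ⊆ C.B V → F (.r2a V Z V') a b ≤ a ∧
        F (.r2b V Z V') a b ≤ b ∧ C.B (f2 V Z V' a b) ⊆ C.B Z ∧
        S.R (F (.r2b V Z V') a b) (F (.r2a V Z V') a b) (f2 V Z V' a b) V') ∧
      (∀ V Z a b, F (.r5a V Z) a b ≤ a ∧ F (.r5b V Z) a b ≤ b ∧
        (S.R (F (.r5a V Z) a b) (F (.r5b V Z) a b) V Z ∨
          (C.B (f5 V Z a b) ⊆ C.B V ∧ S.N (F (.r5a V Z) a b) (F (.r5b V Z) a b) (f5 V Z a b) Z))) := by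
  classical
  have h1 := S.stem_ext
  choose e1 he1 he1' using h1
  have h2 := S.dec0
  choose e2 he2 he2' using h2
  have h3 := S.dec
  choose e3 he3 he3' using h3
  have h4 := S.rob_ex
  choose e4 he4 D4 hD4 hD4' using h4
  have h5 : ∀ V Z V' a b, ∃ a' b' Z', S.R a b V Z → C.B V' ⊆ C.B V →
      a' ≤ a ∧ b' ≤ b ∧ C.B Z' ⊆ C.B Z ∧ S.R b' a' Z' V' := by
    intro V Z V' a b
    by_cases h : S.R a b V Z ∧ C.B V' ⊆ C.B V
    · obtain ⟨a', ha, b', hb, Z', hZ, hR⟩ := S.R2 a b V Z V' h.1 h.2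
      exact ⟨a', b', Z', fun _ _ => ⟨ha, hb, hZ, hR⟩⟩
    · exact ⟨a, b, Z, fun h' h'' => absurd ⟨h', h''⟩ h⟩
  choose a5 b5 f5 hf5 using h5
  have h6 : ∀ V Z a b, ∃ a' b' V', a' ≤ a ∧ b' ≤ b ∧
      (S.R a' b' V Z ∨ (C.B V' ⊆ C.B V ∧ S.N a' b' V' Z)) := by
    intro V Z a b
    obtain ⟨a', ha, b', hb, h⟩ := S.R5 a b V Z
    rcases h with h | ⟨V', hV, h⟩
    · exact ⟨a', b', V, ha, hb, Or.inl h⟩
    · exact ⟨a', b', V', ha, hb, Or.inr ⟨hV, h⟩⟩
  choose a6 b6 f6 hf6 using h6
  refine ⟨fun i p q => match i with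
    | .ext n => e1 p n
    | .dec0 V k => e2 p V k
    | .dec V W => e3 p V W
    | .r2a V Z V' => a5 V Z V' p q
    | .r2b V Z V' => b5 V Z V' p q
    | .r5a V Z => a6 V Z p q
    | .r5b V Z => b6 V Z p q, e4, D4, f5, f6, ?_, ?_, ?_, ?_, ?_, ?_⟩
  · intro n p q
    exact ⟨he1 p n, he1' p n⟩
  · intro V k p q
    exact ⟨he2 p V k, he2' p V k⟩
  · intro V W p q
    exact ⟨he3 p V W, he3' p V W⟩
  · intro p ξ
    exact ⟨he4 p ξ, hD4 p ξ, hD4' p ξ⟩
  · intro V Z V' a b h h'
    exact hf5 V Z V' a b h h'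
  · intro V Z a b
    exact hf6 V Z a b

/-- 0/1 colour of a proposition -/
noncomputable def pc (p : Prop) : ℕ := by
  classical exact if p then 1 else 0

lemma pc_eq_one (p : Prop) : pc p = 1 ↔ p := by
  unfold pc
  split_ifs with h <;> simp [h]

theorem TR : TRAsmStmt.{u, v} := by
  intro hEM G Y _ _ _ _ C κ _ _ P _ hκ S
  classical
  have : Encodable RD := Encodable.ofCountable _
  obtain ⟨F, H, hD, f2, f5, S1, S2, S3, S4, S5, S6⟩ := skolem C κ P S
  have hne : Nonempty κ := by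
    rw [← Cardinal.mk_ne_zero_iff]
    intro h
    rw [h] at hκ
    exact absurd (Cardinal.beth_pos _) (not_lt.2 hκ)
  obtain ⟨κ0⟩ := hne
  let g : ℕ × ℕ → P → κ := fun i p => lval κ0 (S.lab p i.1 i.2)
  let cP : KPP → P → P → ℕ := fun i a b => match i with
    | .le => pc (a ≤ b)
    | .stem => Encodable.encode (S.stem a)
    | .lab V W => lcode (S.lab a V W)
    | .neg V k => pc (S.neg a V k)
    | .R V Z => pc (S.R a b V Z)
    | .N V Z => pc (S.N a b V Z)
    | .r2z V Z V' => f2 V Z V' a b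
    | .r5v V Z => f5 V Z a b
  let cJ : Option RD → P → κ → ℕ := fun i a ξ => match i with
    | none => Encodable.encode (hD a ξ)
    | some D => pc (S.rob a D ξ)
  obtain ⟨T⟩ := exists_two hEM κ P hκ (I := IPP) (A := Unit) (B := ℕ × ℕ) (K := KPP)
    (L := Option RD) S.w0 F (fun _ => H) g cP cJ
  let _ := T.lin
  have := T.ctJ
  have := T.ctP
  -- general facts
  have prop_iff : ∀ (k : KPP) (ρ : P → P → Prop), (∀ a b, cP k a b = pc (ρ a b)) →
      ∀ a b : T.P', (∀ᶠ d in (T.U : Filter T.D), ρ (T.evP d a) (T.evP d b)) ↔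
        T.cP' k a b = 1 := by
    intro k ρ hk a b
    have h1 := T.ev_cP k a b
    constructor
    · intro h
      obtain ⟨d, h2, h3⟩ := (h1.and h).exists
      rw [← h2, hk, (pc_eq_one _).2 h3]
    · intro h
      filter_upwards [h1] with d h2
      rw [h, hk, pc_eq_one] at h2
      exact h2
  have act_iff : ∀ (k : KPP) (ρ : P → P → Prop), (∀ a b, cP k a b = pc (ρ a b)) →
      ∀ (σ : Gam) (a b : T.P'), (∀ᶠ d in (T.U : Filter T.D), ρ (T.evP d a) (T.evP d b)) →
        ∀ᶠ d in (T.U : Filter T.D), ρ (T.evP d (T.aP σ a)) (T.evP d (T.aP σ b)) := by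
    intro k ρ hk σ a b h
    rw [prop_iff k ρ hk] at h ⊢
    rw [T.a_cP, h]
  -- the stem
  let stem' : T.P' → List ℕ := fun p =>
    (Encodable.decode (α := List ℕ) (T.cP' .stem p p)).getD []
  have ev_stem : ∀ p, ∀ᶠ d in (T.U : Filter T.D), S.stem (T.evP d p) = stem' p := by
    intro p
    filter_upwards [T.ev_cP .stem p p] with d hd
    simp only [stem', ← hd, cP, Encodable.encodek, Option.getD_some]
  -- labels
  let lab' : T.P' → ℕ → ℕ → Option (Lab T.J) := fun p V W =>
    lmk (T.cP' (.lab V W) p p) (T.g' (V, W) p)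
  have ev_lab : ∀ p V W, ∀ᶠ d in (T.U : Filter T.D),
      S.lab (T.evP d p) V W = (lab' p V W).map (evL (T.evJ d)) := by
    intro p V W
    filter_upwards [T.ev_cP (.lab V W) p p, T.ev_g (V, W) p] with d h1 h2
    simp only [lab', lmk_map, ← h1, h2, cP, g, lmk_code]
  have ev_lab' : ∀ p V W l, lab' p V W = some l → ∀ᶠ d in (T.U : Filter T.D),
      S.lab (T.evP d p) V W = some (evL (T.evJ d) l) := by
    intro p V W l h
    filter_upwards [ev_lab p V W] with d hd
    rw [hd, h]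
    rfl
  have le_J : ∀ ξ η : T.J, (∀ᶠ d in (T.U : Filter T.D), T.evJ d ξ ≤ T.evJ d η) → ξ ≤ η := by
    intro ξ η h
    by_contra h'
    obtain ⟨d, h1, h2⟩ := (h.and ((T.lt_iff _ _).1 (not_le.1 h'))).exists
    exact absurd h1 (not_le.2 h2)
  have le_lab : ∀ l m : Lab T.J,
      (∀ᶠ d in (T.U : Filter T.D), evL (T.evJ d) l ≤ evL (T.evJ d) m) → l ≤ m := by
    intro l m h
    induction l using WithBot.recBotCoe with
    | bot => exact bot_le
    | coe l =>
      induction m using WithBot.recBotCoe with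
      | bot =>
        obtain ⟨d, hd⟩ := h.exists
        simp [evL] at hd
      | coe m =>
        rw [WithBot.coe_le_coe]
        induction m using WithTop.recTopCoe with
        | top => exact le_top
        | coe η =>
          induction l using WithTop.recTopCoe with
          | top =>
            obtain ⟨d, hd⟩ := h.exists
            change ((⊤ : WithTop κ) : WithBot (WithTop κ)) ≤
              ((T.evJ d η : WithTop κ) : WithBot (WithTop κ)) at hd
            rw [WithBot.coe_le_coe] at hd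
            exact absurd (top_le_iff.1 hd) WithTop.coe_ne_top
          | coe ξ =>
            rw [WithTop.coe_le_coe]
            apply le_J
            filter_upwards [h] with d hd
            simpa [evL] using hd
  have eq_lab : ∀ l m : Lab T.J,
      (∀ᶠ d in (T.U : Filter T.D), evL (T.evJ d) l = evL (T.evJ d) m) → l = m := by
    intro l m h
    exact le_antisymm (le_lab l m (h.mono fun d hd => hd.le))
      (le_lab m l (h.mono fun d hd => hd.ge))
  let pre : Preorder T.P' :=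
    { le := fun q p => ∀ᶠ d in (T.U : Filter T.D), T.evP d q ≤ T.evP d p
      le_refl := fun p => Eventually.of_forall fun d => le_refl _
      le_trans := fun p q r h1 h2 => by
        filter_upwards [h1, h2] with d h3 h4 using le_trans h3 h4 }
  refine ⟨T.J, T.lin, T.P', pre, T.ctJ, T.ctP, ⟨{
    stem := stem'
    stem_mono := ?_
    stem_ext := ?_
    neg := fun p V k => ∀ᶠ d in (T.U : Filter T.D), S.neg (T.evP d p) V k
    neg_mono := ?_
    neg_not := ?_
    dec0 := ?_
    lab := lab'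
    lab_mono := ?_
    dec := ?_
    lmono := ?_
    rob := fun p D ξ => ∀ᶠ d in (T.U : Filter T.D), S.rob (T.evP d p) D (T.evJ d ξ)
    rob_mono := ?_
    rob_ex := ?_
    rob_up := ?_
    rob_down := ?_
    R := fun a b V Z => ∀ᶠ d in (T.U : Filter T.D), S.R (T.evP d a) (T.evP d b) V Z
    w0 := T.w'
    R0 := ?_
    R1 := ?_
    R2 := ?_
    R3 := ?_
    R4 := ?_
    N := fun a b V Z => ∀ᶠ d in (T.U : Filter T.D), S.N (T.evP d a) (T.evP d b) V Z
    N_mono := ?_
    N_not := ?_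
    R5 := ?_
    R6 := ?_
    R7 := ?_
    aJ := T.aJ
    aP := T.aP
    aJ_one := T.aJ_one
    aJ_mul := T.aJ_mul
    aP_one := T.aP_one
    aP_mul := T.aP_mul
    aJ_lt := T.aJ_lt
    aP_le := ?_
    a_stem := ?_
    a_neg := ?_
    a_lab := ?_
    a_rob := ?_
    a_R := ?_
    a_N := ?_
    a_w0 := T.a_w
    ι := T.ι
    ι_lt := T.ι_lt
    a_ι := T.a_ι
    supp := T.supp }⟩⟩
  · -- stem_mono
    intro p q hqp
    obtain ⟨d, h1, h2, h3⟩ := (Eventually.and hqp ((ev_stem p).and (ev_stem q))).exists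
    rw [← h2, ← h3]
    exact S.stem_mono h1
  · -- stem_ext
    intro p n
    obtain ⟨q, hq⟩ := T.ev_F (.ext n) p p
    refine ⟨q, ?_, ?_⟩
    · filter_upwards [hq] with d hd
      rw [hd]
      exact (S1 n _ _).1
    · obtain ⟨d, h1, h2⟩ := (hq.and (ev_stem q)).exists
      rw [← h2, h1]
      exact (S1 n _ _).2
  · -- neg_mono
    intro p q hqp V k h
    filter_upwards [hqp, h] with d h1 h2
    exact S.neg_mono h1 V k h2
  · -- neg_not
    intro p V k h
    obtain ⟨d, h1, h2⟩ := (h.and (ev_stem p)).exists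
    rw [← h2]
    exact S.neg_not _ V k h1
  · -- dec0
    intro p V k
    obtain ⟨q, hq⟩ := T.ev_F (.dec0 V k) p p
    refine ⟨q, ?_, ?_⟩
    · filter_upwards [hq] with d hd
      rw [hd]
      exact (S2 V k _ _).1
    · have h1 : ∀ᶠ d in (T.U : Filter T.D),
          C.Forces (stem' q) V k ∨ S.neg (T.evP d q) V k := by
        filter_upwards [hq, ev_stem q] with d hd h2
        rw [← h2, hd]
        exact (S2 V k _ _).2
      rw [Ultrafilter.eventually_or] at h1
      rcases h1 with h1 | h1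
      · left
        exact h1.exists.choose_spec
      · right
        exact h1
  · -- lab_mono
    intro p q hqp V W l h
    have h1 := ev_lab' p V W l h
    have h2 := ev_lab q V W
    have h3 : ∀ᶠ d in (T.U : Filter T.D),
        (lab' q V W).map (evL (T.evJ d)) = some (evL (T.evJ d) l) := by
      filter_upwards [h1, h2, hqp] with d h4 h5 h6
      rw [← h5]
      exact S.lab_mono h6 V W _ h4
    cases h4 : lab' q V W with
    | none =>
      rw [h4] at h3
      obtain ⟨d, hd⟩ := h3.exists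
      simp at hd
    | some m =>
      rw [h4] at h3
      rw [eq_lab m l (h3.mono fun d hd => by simpa using hd)]
  · -- dec
    intro p V W
    obtain ⟨q, hq⟩ := T.ev_F (.dec V W) p p
    refine ⟨q, ?_, ?_⟩
    · filter_upwards [hq] with d hd
      rw [hd]
      exact (S3 V W _ _).1
    · obtain ⟨d, h1, h2⟩ := (hq.and (ev_lab q V W)).exists
      obtain ⟨l, hl⟩ := (S3 V W (T.evP d p) (T.evP d p)).2
      rw [← h1, h2] at hl
      cases h4 : lab' q V W with
      | none =>
        rw [h4] at hl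
        simp at hl
      | some m => exact ⟨m, rfl⟩
  · -- lmono
    intro p V W V' W' l m hV hW h1 h2
    apply le_lab
    filter_upwards [ev_lab' p V W l h1, ev_lab' p V' W' m h2] with d h3 h4
    exact S.lmono _ V W V' W' _ _ hV hW h3 h4
  · -- rob_mono
    intro p q hqp D ξ h
    filter_upwards [hqp, h] with d h1 h2
    exact S.rob_mono h1 D _ h2
  · -- rob_ex
    intro p ξ
    obtain ⟨q, hq⟩ := T.ev_H () p ξ
    have h1 : ∀ᶠ d in (T.U : Filter T.D),
        Encodable.encode (hD (T.evP d p) (T.evJ d ξ)) = T.cJ' none p ξ := T.ev_cJ none p ξ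
    obtain ⟨d0, hd0⟩ := h1.exists
    have h2 : ∀ᶠ d in (T.U : Filter T.D),
        hD (T.evP d p) (T.evJ d ξ) = hD (T.evP d0 p) (T.evJ d0 ξ) := by
      filter_upwards [h1] with d hd
      rw [← hd0] at hd
      exact Encodable.encode_injective hd
    refine ⟨q, ?_, hD (T.evP d0 p) (T.evJ d0 ξ), (S4 _ _).2.1, ?_⟩
    · filter_upwards [hq] with d hd
      rw [hd]
      exact (S4 _ _).1
    · filter_upwards [hq, h2] with d hd h3
      rw [hd, ← h3]
      exact (S4 _ _).2.2
  · -- rob_up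
    intro p D ξ h e he m hm
    apply le_lab
    filter_upwards [h, ev_lab' _ _ _ _ hm] with d h1 h2
    rw [evL_lb]
    exact S.rob_up _ D _ h1 e he _ h2
  · -- rob_down
    intro p D ξ h m hm
    apply le_lab
    filter_upwards [h, ev_lab' _ _ _ _ hm] with d h1 h2
    rw [evL_lb]
    exact S.rob_down _ D _ h1 _ h2
  · -- R0
    filter_upwards [T.ev_w] with d hd
    rw [hd]
    exact S.R0
  · -- R1
    intro a b a' b' ha hb V Z h
    filter_upwards [ha, hb, h] with d h1 h2 h3
    exact S.R1 h1 h2 V Z h3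
  · -- R2
    intro a b V Z V' h hV
    obtain ⟨a', ha⟩ := T.ev_F (.r2a V Z V') a b
    obtain ⟨b', hb⟩ := T.ev_F (.r2b V Z V') a b
    have h0 : ∀ᶠ d in (T.U : Filter T.D),
        f2 V Z V' (T.evP d a) (T.evP d b) = T.cP' (.r2z V Z V') a b := T.ev_cP (.r2z V Z V') a b
    refine ⟨a', ?_, b', ?_, T.cP' (.r2z V Z V') a b, ?_, ?_⟩
    · filter_upwards [h, ha] with d h1 h2
      rw [h2]
      exact (S5 V Z V' _ _ h1 hV).1
    · filter_upwards [h, hb] with d h1 h2
      rw [h2]
      exact (S5 V Z V' _ _ h1 hV).2.1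
    · obtain ⟨d, h1, h2⟩ := (h.and h0).exists
      rw [← h2]
      exact (S5 V Z V' _ _ h1 hV).2.2.1
    · filter_upwards [h, ha, hb, h0] with d h1 h2 h3 h4
      rw [h2, h3, ← h4]
      exact (S5 V Z V' _ _ h1 hV).2.2.2
  · -- R3
    intro a b V Z k h h1 h2
    obtain ⟨d, h3, h4, h5⟩ := (h.and (h2.and (ev_stem a))).exists
    rw [← h5] at h1
    exact S.R3 _ _ V Z k h3 h1 h4
  · -- R4
    intro a b V Z V1 Z1 l m h1 h2 h3 h4
    apply le_lab
    filter_upwards [h1, h2, ev_lab' _ _ _ _ h3, ev_lab' _ _ _ _ h4] with d h5 h6 h7 h8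
    exact S.R4 _ _ V Z V1 Z1 _ _ h5 h6 h7 h8
  · -- N_mono
    intro a b a' b' ha hb V Z h
    filter_upwards [ha, hb, h] with d h1 h2 h3
    exact S.N_mono h1 h2 V Z h3
  · -- N_not
    intro a b V' Z Z' h hZ h1
    obtain ⟨d, h2, h3⟩ := (h.and h1).exists
    exact S.N_not _ _ V' Z Z' h2 hZ h3
  · -- R5
    intro a b V Z
    obtain ⟨a', ha⟩ := T.ev_F (.r5a V Z) a b
    obtain ⟨b', hb⟩ := T.ev_F (.r5b V Z) a b
    have h0 : ∀ᶠ d in (T.U : Filter T.D),
        f5 V Z (T.evP d a) (T.evP d b) = T.cP' (.r5v V Z) a b := T.ev_cP (.r5v V Z) a b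
    refine ⟨a', ?_, b', ?_, ?_⟩
    · filter_upwards [ha] with d h2
      rw [h2]
      exact (S6 V Z _ _).1
    · filter_upwards [hb] with d h2
      rw [h2]
      exact (S6 V Z _ _).2.1
    · have h1 : ∀ᶠ d in (T.U : Filter T.D), S.R (T.evP d a') (T.evP d b') V Z ∨
          (C.B (T.cP' (.r5v V Z) a b) ⊆ C.B V ∧
            S.N (T.evP d a') (T.evP d b') (T.cP' (.r5v V Z) a b) Z) := by
        filter_upwards [ha, hb, h0] with d h2 h3 h4
        rw [h2, h3, ← h4]
        exact (S6 V Z _ _).2.2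
      rw [Ultrafilter.eventually_or] at h1
      rcases h1 with h1 | h1
      · left
        exact h1
      · right
        exact ⟨_, h1.exists.choose_spec.1, h1.mono fun d hd => hd.2⟩
  · -- R6
    intro a b i V Z h
    filter_upwards [h] with d h1
    exact S.R6 _ _ i V Z h1
  · -- R7
    intro a b V Z V' Z' hV hZ h
    filter_upwards [h] with d h1
    exact S.R7 _ _ V Z V' Z' hV hZ h1
  · -- aP_le
    intro σ p q h
    exact act_iff .le (fun a b => a ≤ b) (fun _ _ => rfl) σ q p h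
  · -- a_stem
    intro σ p
    simp only [stem', T.a_cP]
  · -- a_neg
    intro σ p V k h
    exact act_iff (.neg V k) (fun a _ => S.neg a V k) (fun _ _ => rfl) σ p p h
  · -- a_lab
    intro σ p V W
    change lab' (T.aP σ p) V W = (lab' p V W).map (evL (T.aJ σ))
    simp only [lab', lmk_map, T.a_cP, T.a_g]
  · -- a_rob
    intro σ p D ξ h
    have h1 := T.ev_cJ (some D) p ξ
    have h2 := T.ev_cJ (some D) (T.aP σ p) (T.aJ σ ξ)
    have h3 : T.cJ' (some D) p ξ = 1 := by
      obtain ⟨d, h4, h5⟩ := (h1.and h).exists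
      rw [← h4]
      exact (pc_eq_one _).2 h5
    rw [T.a_cJ, h3] at h2
    filter_upwards [h2] with d h4
    exact (pc_eq_one _).1 h4
  · -- a_R
    intro σ a b V Z h
    exact act_iff (.R V Z) (fun a b => S.R a b V Z) (fun _ _ => rfl) σ a b h
  · -- a_N
    intro σ a b V Z h
    exact act_iff (.N V Z) (fun a b => S.N a b V Z) (fun _ _ => rfl) σ a b h

end Pool.Agent.H13.HV
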