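import Pool.Agent.H71.HV.Targets2

/-!
# TR, part 1: two-sorted Ehrenfeucht–Mostowski output
-/

set_option autoImplicit false

open Set Topology TopologicalSpace Filter

namespace Pool.Agent.H13.HV

open Pool.Agent.H71.HV

/-- Two-sorted output of the Ehrenfeucht–Mostowski construction. -/
structure Two (κ P : Type) [LinearOrder κ] {I A B K L : Type} (w : P)
    (F : I → P → P → P) (H : A → P → κ → P) (g : B → P → κ)
    (cP : K → P → P → ℕ) (cJ : L → P → κ → ℕ) where
  J : Type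
  P' : Type
  [lin : LinearOrder J]
  ctJ : Countable J
  ctP : Countable P'
  D : Type
  U : Ultrafilter D
  evJ : D → J → κ
  evP : D → P' → P
  lt_iff : ∀ ξ η : J, ξ < η ↔ ∀ᶠ d in (U : Filter D), evJ d ξ < evJ d η
  injP : ∀ a b : P', (∀ᶠ d in (U : Filter D), evP d a = evP d b) → a = b
  w' : P'
  ev_w : ∀ᶠ d in (U : Filter D), evP d w' = w
  ev_F : ∀ i a b, ∃ c, ∀ᶠ d in (U : Filter D), evP d c = F i (evP d a) (evP d b)
  ev_H : ∀ i a ξ, ∃ c, ∀ᶠ d in (U : Filter D), evP d c = H i (evP d a) (evJ d ξ)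
  g' : B → P' → J
  ev_g : ∀ i a, ∀ᶠ d in (U : Filter D), evJ d (g' i a) = g i (evP d a)
  cP' : K → P' → P' → ℕ
  ev_cP : ∀ i a b, ∀ᶠ d in (U : Filter D), cP i (evP d a) (evP d b) = cP' i a b
  cJ' : L → P' → J → ℕ
  ev_cJ : ∀ i a ξ, ∀ᶠ d in (U : Filter D), cJ i (evP d a) (evJ d ξ) = cJ' i a ξ
  aJ : Gam → J → J
  aP : Gam → P' → P'
  aJ_one : ∀ ξ, aJ 1 ξ = ξ
  aJ_mul : ∀ σ τ ξ, aJ (σ * τ) ξ = aJ σ (aJ τ ξ)
  aP_one : ∀ p, aP 1 p = p
  aP_mul : ∀ σ τ p, aP (σ * τ) p = aP σ (aP τ p)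
  aJ_lt : ∀ σ {ξ η : J}, ξ < η → aJ σ ξ < aJ σ η
  a_w : ∀ σ, aP σ w' = w'
  a_g : ∀ σ i a, aJ σ (g' i a) = g' i (aP σ a)
  a_cP : ∀ σ i a b, cP' i (aP σ a) (aP σ b) = cP' i a b
  a_cJ : ∀ σ i a ξ, cJ' i (aP σ a) (aJ σ ξ) = cJ' i a ξ
  ι : ℚ → J
  ι_lt : ∀ {a b : ℚ}, a < b → ι a < ι b
  a_ι : ∀ (σ : Gam) q, aJ σ (ι q) = ι (σ q)
  supp : ∀ ξ : J, ∃ F : Finset ℚ, ∀ σ τ : Gam, (∀ q ∈ F, σ q = τ q) → aJ σ ξ = aJ τ ξ

section

variable {κ P I A B K L : Type} [LinearOrder κ] (w : P)
    (F : I → P → P → P) (H : A → P → κ → P) (g : B → P → κ)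
    (cP : K → P → P → ℕ) (cJ : L → P → κ → ℕ)

/-- the operations -/
def opS : Option (I ⊕ (A ⊕ B)) → κ ⊕ P → κ ⊕ P → κ ⊕ P
  | none, _, _ => .inr w
  | some (.inl i), .inr a, .inr b => .inr (F i a b)
  | some (.inr (.inl i)), .inr a, .inl ξ => .inr (H i a ξ)
  | some (.inr (.inr i)), .inr a, _ => .inl (g i a)
  | _, x, _ => x

/-- the colourings -/
def colS : Option (Option (K ⊕ L)) → κ ⊕ P → κ ⊕ P → ℕ
  | none, .inl _, _ => 0
  | none, .inr _, _ => 1
  | some none, .inl a, .inl b => if a < b then 1 else 0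
  | some (some (.inl i)), .inr a, .inr b => cP i a b
  | some (some (.inr i)), .inr a, .inl ξ => cJ i a ξ
  | _, _, _ => 0

/-- operations indexed by numbers -/
noncomputable def opN [Encodable (Option (I ⊕ (A ⊕ B)))] (n : ℕ) : κ ⊕ P → κ ⊕ P → κ ⊕ P :=
  match Encodable.decode (α := Option (I ⊕ (A ⊕ B))) n with
  | some i => opS w F H g i
  | none => fun x _ => x

/-- colourings indexed by numbers -/
noncomputable def colN [Encodable (Option (Option (K ⊕ L)))] (n : ℕ) : κ ⊕ P → κ ⊕ P → ℕ :=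
  match Encodable.decode (α := Option (Option (K ⊕ L))) n with
  | some i => colS cP cJ i
  | none => fun _ _ => 0

lemma opN_encode [Encodable (Option (I ⊕ (A ⊕ B)))] (i : Option (I ⊕ (A ⊕ B))) :
    opN w F H g (Encodable.encode i) = opS w F H g i := by
  simp [opN, Encodable.encodek]

lemma colN_encode [Encodable (Option (Option (K ⊕ L)))] (i : Option (Option (K ⊕ L))) :
    colN cP cJ (Encodable.encode i) = colS cP cJ i := by
  simp [colN, Encodable.encodek]

end

theorem exists_two (hEM : EMStmt) (κ P : Type) [LinearOrder κ] [WellFoundedLT κ]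
    (hκ : Cardinal.beth (Ordinal.omega 1) ≤ Cardinal.mk κ) {I A B K L : Type}
    [Countable I] [Countable A] [Countable B] [Countable K] [Countable L] (w : P)
    (F : I → P → P → P) (H : A → P → κ → P) (g : B → P → κ)
    (cP : K → P → P → ℕ) (cJ : L → P → κ → ℕ) : Nonempty (Two κ P w F H g cP cJ) := by
  classical
  have : Encodable (Option (I ⊕ (A ⊕ B))) := Encodable.ofCountable _
  have : Encodable (Option (Option (K ⊕ L))) := Encodable.ofCountable _
  obtain ⟨M⟩ := hEM κ (κ ⊕ P) hκ Sum.inl (opN w F H g) (colN cP cJ)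
  have := M.ctbl
  have hne : Nonempty κ := by
    rw [← Cardinal.mk_ne_zero_iff]
    intro h
    rw [h] at hκ
    exact absurd (Cardinal.beth_pos _) (not_lt.2 hκ)
  obtain ⟨κ0⟩ := hne
  -- operations and colourings
  let oi : Option (I ⊕ (A ⊕ B)) → ℕ := Encodable.encode
  let ci : Option (Option (K ⊕ L)) → ℕ := Encodable.encode
  have hop : ∀ i x y, ∀ᶠ d in (M.U : Filter M.D),
      M.ev d (M.op' (oi i) x y) = opS w F H g i (M.ev d x) (M.ev d y) := by
    intro i x y
    have := M.ev_op (oi i) x y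
    simp only [oi, opN_encode] at this ⊢
    exact this
  have hcol : ∀ i x y, ∀ᶠ d in (M.U : Filter M.D),
      colS cP cJ i (M.ev d x) (M.ev d y) = M.col' (ci i) x y := by
    intro i x y
    have := M.ev_col (ci i) x y
    simp only [ci, colN_encode] at this ⊢
    exact this
  let J := {x : M.Ω' // M.col' (ci none) x x = 0}
  let P' := {x : M.Ω' // M.col' (ci none) x x = 1}
  let evJ : M.D → J → κ := fun d x => Sum.elim id (fun _ => κ0) (M.ev d x.1)
  let evP : M.D → P' → P := fun d x => Sum.elim (fun _ => w) id (M.ev d x.1)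
  have hJ : ∀ x : J, ∀ᶠ d in (M.U : Filter M.D), M.ev d x.1 = .inl (evJ d x) := by
    intro x
    filter_upwards [hcol none x.1 x.1] with d hd
    rw [x.2] at hd
    simp only [evJ]
    cases h : M.ev d x.1 with
    | inl a => simp
    | inr a => rw [h] at hd; simp [colS] at hd
  have hP : ∀ x : P', ∀ᶠ d in (M.U : Filter M.D), M.ev d x.1 = .inr (evP d x) := by
    intro x
    filter_upwards [hcol none x.1 x.1] with d hd
    rw [x.2] at hd
    simp only [evP]
    cases h : M.ev d x.1 with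
    | inr a => simp
    | inl a => rw [h] at hd; simp [colS] at hd
  have mkJ : ∀ x : M.Ω', (∀ᶠ d in (M.U : Filter M.D), ∃ a, M.ev d x = .inl a) →
      M.col' (ci none) x x = 0 := by
    intro x hx
    obtain ⟨d, h1, a, h2⟩ := ((hcol none x x).and hx).exists
    rw [← h1, h2]
    simp [colS]
  have mkP : ∀ x : M.Ω', (∀ᶠ d in (M.U : Filter M.D), ∃ a, M.ev d x = .inr a) →
      M.col' (ci none) x x = 1 := by
    intro x hx
    obtain ⟨d, h1, a, h2⟩ := ((hcol none x x).and hx).exists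
    rw [← h1, h2]
    simp [colS]
  have injJ : ∀ a b : J, (∀ᶠ d in (M.U : Filter M.D), evJ d a = evJ d b) → a = b := by
    intro a b h
    by_contra hab
    have h1 := M.ev_inj a.1 b.1 (fun h => hab (Subtype.ext h))
    obtain ⟨d, h2, h3, h4, h5⟩ := (h1.and (h.and ((hJ a).and (hJ b)))).exists
    rw [h4, h5, h3] at h2
    exact h2 rfl
  have injP : ∀ a b : P', (∀ᶠ d in (M.U : Filter M.D), evP d a = evP d b) → a = b := by
    intro a b h
    by_contra hab
    have h1 := M.ev_inj a.1 b.1 (fun h => hab (Subtype.ext h))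
    obtain ⟨d, h2, h3, h4, h5⟩ := (h1.and (h.and ((hP a).and (hP b)))).exists
    rw [h4, h5, h3] at h2
    exact h2 rfl
  -- the order
  have hlt : ∀ ξ η : J, (∀ᶠ d in (M.U : Filter M.D), evJ d ξ < evJ d η) ↔
      M.col' (ci (some none)) ξ.1 η.1 = 1 := by
    intro ξ η
    have h1 := hcol (some none) ξ.1 η.1
    constructor
    · intro h
      obtain ⟨d, h2, h3, h4, h5⟩ := (h1.and (h.and ((hJ ξ).and (hJ η)))).exists
      rw [← h2, h4, h5]
      simp [colS, h3]
    · intro h
      filter_upwards [h1, hJ ξ, hJ η] with d h2 h4 h5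
      rw [h, h4, h5] at h2
      by_contra h6
      simp [colS, h6] at h2
  let lin : LinearOrder J :=
    { le := fun ξ η => ∀ᶠ d in (M.U : Filter M.D), evJ d ξ ≤ evJ d η
      lt := fun ξ η => ∀ᶠ d in (M.U : Filter M.D), evJ d ξ < evJ d η
      le_refl := fun ξ => Eventually.of_forall fun d => le_refl _
      le_trans := fun ξ η ζ h1 h2 => by
        filter_upwards [h1, h2] with d h3 h4 using le_trans h3 h4
      lt_iff_le_not_ge := fun ξ η => by
        constructor
        · intro h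
          refine ⟨h.mono fun d hd => le_of_lt hd, fun h' => ?_⟩
          obtain ⟨d, h1, h2⟩ := (h.and h').exists
          exact absurd h1 (not_lt.2 h2)
        · rintro ⟨h1, h2⟩
          have h3 := (Ultrafilter.eventually_not (f := M.U)).2 h2
          filter_upwards [h3] with d hd using not_le.1 hd
      le_antisymm := fun ξ η h1 h2 => injJ ξ η (by
        filter_upwards [h1, h2] with d h3 h4 using le_antisymm h3 h4)
      le_total := fun ξ η => by
        rw [← Ultrafilter.eventually_or]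
        exact Eventually.of_forall fun d => le_total _ _
      toDecidableLE := Classical.decRel _ }
  -- the action
  have aJm : ∀ (σ : Gam) (x : J), M.col' (ci none) (M.act σ x.1) (M.act σ x.1) = 0 := by
    intro σ x
    rw [M.act_col]
    exact x.2
  have aPm : ∀ (σ : Gam) (x : P'), M.col' (ci none) (M.act σ x.1) (M.act σ x.1) = 1 := by
    intro σ x
    rw [M.act_col]
    exact x.2
  let aJ : Gam → J → J := fun σ x => ⟨M.act σ x.1, aJm σ x⟩
  let aP : Gam → P' → P' := fun σ x => ⟨M.act σ x.1, aPm σ x⟩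
  -- the constant
  have hw0 : ∀ x y, ∀ᶠ d in (M.U : Filter M.D), M.ev d (M.op' (oi none) x y) = .inr w := by
    intro x y
    filter_upwards [hop none x y] with d hd
    rw [hd]
    simp [opS]
  let w' : P' := ⟨M.op' (oi none) (M.e' 0) (M.e' 0), mkP _ ((hw0 _ _).mono fun d hd => ⟨w, hd⟩)⟩
  have ev_w : ∀ᶠ d in (M.U : Filter M.D), evP d w' = w := by
    filter_upwards [hw0 (M.e' 0) (M.e' 0)] with d hd
    simp [evP, w', hd]
  have hg : ∀ i (a : P'), ∀ᶠ d in (M.U : Filter M.D),
      M.ev d (M.op' (oi (some (.inr (.inr i)))) a.1 a.1) = .inl (g i (evP d a)) := by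
    intro i a
    filter_upwards [hop (some (.inr (.inr i))) a.1 a.1, hP a] with d hd ha
    rw [hd, ha]
    simp [opS]
  have he : ∀ q, ∀ᶠ d in (M.U : Filter M.D), ∃ a, M.ev d (M.e' q) = .inl a :=
    fun q => (M.ev_e q).mono fun d hd => ⟨_, hd⟩
  refine ⟨{
    J := J
    P' := P'
    lin := lin
    ctJ := inferInstance
    ctP := inferInstance
    D := M.D
    U := M.U
    evJ := evJ
    evP := evP
    lt_iff := fun ξ η => Iff.rfl
    injP := injP
    w' := w'
    ev_w := ev_w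
    ev_F := ?_
    ev_H := ?_
    g' := fun i a => ⟨M.op' (oi (some (.inr (.inr i)))) a.1 a.1,
      mkJ _ ((hg i a).mono fun d hd => ⟨_, hd⟩)⟩
    ev_g := ?_
    cP' := fun i a b => M.col' (ci (some (some (.inl i)))) a.1 b.1
    ev_cP := ?_
    cJ' := fun i a ξ => M.col' (ci (some (some (.inr i)))) a.1 ξ.1
    ev_cJ := ?_
    aJ := aJ
    aP := aP
    aJ_one := ?_
    aJ_mul := ?_
    aP_one := ?_
    aP_mul := ?_
    aJ_lt := ?_
    a_w := ?_
    a_g := ?_
    a_cP := ?_
    a_cJ := ?_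
    ι := fun q => ⟨M.e' q, mkJ _ (he q)⟩
    ι_lt := ?_
    a_ι := ?_
    supp := ?_ }⟩
  · intro i a b
    have h1 : ∀ᶠ d in (M.U : Filter M.D),
        M.ev d (M.op' (oi (some (.inl i))) a.1 b.1) = .inr (F i (evP d a) (evP d b)) := by
      filter_upwards [hop (some (.inl i)) a.1 b.1, hP a, hP b] with d hd ha hb
      rw [hd, ha, hb]
      simp [opS]
    refine ⟨⟨_, mkP _ (h1.mono fun d hd => ⟨_, hd⟩)⟩, ?_⟩
    filter_upwards [h1] with d hd
    simp only [evP, hd, Sum.elim_inr, id]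
  · intro i a ξ
    have h1 : ∀ᶠ d in (M.U : Filter M.D),
        M.ev d (M.op' (oi (some (.inr (.inl i)))) a.1 ξ.1) = .inr (H i (evP d a) (evJ d ξ)) := by
      filter_upwards [hop (some (.inr (.inl i))) a.1 ξ.1, hP a, hJ ξ] with d hd ha hb
      rw [hd, ha, hb]
      simp [opS]
    refine ⟨⟨_, mkP _ (h1.mono fun d hd => ⟨_, hd⟩)⟩, ?_⟩
    filter_upwards [h1] with d hd
    simp only [evP, hd, Sum.elim_inr, id]
  · intro i a
    filter_upwards [hg i a] with d hd
    simp only [evJ, hd, Sum.elim_inl, id]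
  · intro i a b
    filter_upwards [hcol (some (some (.inl i))) a.1 b.1, hP a, hP b] with d hd ha hb
    rw [← hd, ha, hb]
    simp [colS]
  · intro i a ξ
    filter_upwards [hcol (some (some (.inr i))) a.1 ξ.1, hP a, hJ ξ] with d hd ha hb
    rw [← hd, ha, hb]
    simp [colS]
  · intro ξ
    exact Subtype.ext (M.act_one _)
  · intro σ τ ξ
    exact Subtype.ext (M.act_mul _ _ _)
  · intro p
    exact Subtype.ext (M.act_one _)
  · intro σ τ p
    exact Subtype.ext (M.act_mul _ _ _)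
  · intro σ ξ η h
    have h1 := (hlt ξ η).1 h
    refine (hlt (aJ σ ξ) (aJ σ η)).2 ?_
    rw [← h1]
    exact M.act_col _ _ _ _
  · intro σ
    apply injP
    have h1 : ∀ᶠ d in (M.U : Filter M.D), evP d (aP σ w') = w := by
      filter_upwards [hw0 (M.act σ (M.e' 0)) (M.act σ (M.e' 0))] with d hd
      simp only [evP, w', aP, M.act_op, hd, Sum.elim_inr, id]
    filter_upwards [h1, ev_w] with d h2 h3
    rw [h2, h3]
  · intro σ i a
    exact Subtype.ext (M.act_op _ _ _ _)
  · intro σ i a b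
    exact M.act_col _ _ _ _
  · intro σ i a ξ
    exact M.act_col _ _ _ _
  · intro a b hab
    change ∀ᶠ d in (M.U : Filter M.D), _
    filter_upwards [M.ev_e a, M.ev_e b, M.ξ_lt a b hab] with d h1 h2 h3
    simp only [evJ, h1, h2, Sum.elim_inl, id]
    exact h3
  · intro σ q
    exact Subtype.ext (M.act_e _ _)
  · intro ξ
    obtain ⟨S, hS⟩ := M.supp ξ.1
    exact ⟨S, fun σ τ h => Subtype.ext (hS σ τ h)⟩

end Pool.Agent.H13.HV
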